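import Mathlib

/-!
# T35: the rounding lemma
-/

set_option autoImplicit false

namespace Pool.BL72

open Finset

/-- the data of one atom `0 < p ≤ 1`: `k = ⌊1 / p⌋` -/
lemma atom {p : ℝ} (h0 : 0 < p) (h1 : p ≤ 1) :
    1 ≤ ⌊1 / p⌋₊ ∧ ((⌊1 / p⌋₊ : ℕ) : ℝ) * p ≤ 1 ∧ 1 < ((⌊1 / p⌋₊ : ℕ) + 1 : ℝ) * p := by
  have h2 : (1 : ℝ) ≤ 1 / p := by rw [le_div_iff₀ h0]; linarith
  refine ⟨?_, ?_, ?_⟩
  · exact Nat.le_floor (by exact_mod_cast h2)
  · have := Nat.floor_le (by positivity : 0 ≤ 1 / p)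
    calc ((⌊1 / p⌋₊ : ℕ) : ℝ) * p ≤ 1 / p * p := by gcongr
      _ = 1 := by field_simp
  · have := Nat.lt_floor_add_one (1 / p)
    calc (1 : ℝ) = 1 / p * p := by field_simp
      _ < ((⌊1 / p⌋₊ : ℕ) + 1 : ℝ) * p := by gcongr

/-- choice of the mixing parameters for `∑ p ≤ 1` -/
theorem theta {ι : Type*} [DecidableEq ι] (S : Finset ι) (p : ι → ℝ) (hp : ∀ t ∈ S, 0 < p t)
    (hx : ∑ t ∈ S, p t ≤ 1) (k : ι → ℕ) (hk : ∀ t ∈ S, 1 ≤ k t ∧ (k t : ℝ) * p t ≤ 1 ∧
      1 < ((k t : ℝ) + 1) * p t) :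
    ∃ θ : ι → ℝ, (∀ t, 0 ≤ θ t ∧ θ t ≤ 1) ∧
      ∑ t ∈ S, (θ t / k t + (1 - θ t) / (k t + 1)) ≤ 1 ∧
      min (∑ t ∈ S, p t) ((∑ t ∈ S, p t) / 2 + 1 / 4) ≤
        ∑ t ∈ S, (θ t * p t + (1 - θ t) / (k t + 1)) := by
  classical
  set x := ∑ t ∈ S, p t with hxd
  have hkpos : ∀ t ∈ S, (1 : ℝ) ≤ k t := fun t ht => by exact_mod_cast (hk t ht).1
  have hle : ∀ t ∈ S, p t ≤ x := fun t ht =>
    single_le_sum (fun i hi => (hp i hi).le) ht
  -- `l = 1 / (k + 1) < p ≤ 1 / k`
  have hl : ∀ t ∈ S, 1 / ((k t : ℝ) + 1) ≤ p t := fun t ht => by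
    have h1 := hkpos t ht
    rw [div_le_iff₀ (by linarith)]
    have := (hk t ht).2.2
    linarith
  have hu : ∀ t ∈ S, p t ≤ 1 / (k t : ℝ) := fun t ht => by
    have h1 := hkpos t ht
    rw [le_div_iff₀ (by linarith)]
    have := (hk t ht).2.1
    linarith
  by_cases hx2 : x ≤ 1 / 2
  · -- all `θ = 1`
    refine ⟨fun _ => 1, fun _ => ⟨zero_le_one, le_rfl⟩, ?_, ?_⟩
    · have h1 : ∀ t ∈ S, (1 : ℝ) / k t + (1 - 1) / (k t + 1) ≤ 2 * p t := by
        intro t ht
        have h2 := hkpos t ht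
        have h3 := (hk t ht).2.2
        have h4 := hle t ht
        rw [sub_self, zero_div, add_zero, div_le_iff₀ (by linarith)]
        nlinarith [hp t ht]
      calc _ ≤ ∑ t ∈ S, 2 * p t := sum_le_sum h1
        _ = 2 * x := by rw [← mul_sum]
        _ ≤ 1 := by linarith
    · refine le_trans (min_le_left _ _) (le_of_eq ?_)
      rw [hxd]
      refine sum_congr rfl fun t _ => ?_
      ring
  push Not at hx2
  by_cases hbig : ∃ t1 ∈ S, 1 / 2 < p t1
  · -- one large atom
    obtain ⟨t1, ht1, hp1⟩ := hbig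
    set T := S.erase t1 with hT
    set L := ∑ t ∈ T, 1 / ((k t : ℝ) + 1) with hL
    set x' := ∑ t ∈ T, p t with hx'
    have hxs : p t1 + x' = x := by rw [hxd, ← add_sum_erase S p ht1]
    have hTS : ∀ t ∈ T, t ∈ S := fun t ht => mem_of_mem_erase ht
    have hx'0 : 0 ≤ x' := sum_nonneg fun t ht => (hp t (hTS t ht)).le
    have hL0 : 0 ≤ L := sum_nonneg fun t ht => by positivity
    have hLx : L ≤ x' := sum_le_sum fun t ht => hl t (hTS t ht)
    have hk1 : k t1 = 1 := by
      have h1 := (hk t1 ht1).1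
      have h2 := (hk t1 ht1).2.1
      by_contra h
      have h3 : 2 ≤ k t1 := by omega
      have h4 : (2 : ℝ) ≤ k t1 := by exact_mod_cast h3
      nlinarith
    have hk2 : ∀ t ∈ T, (2 : ℝ) ≤ k t := by
      intro t ht
      have h1 := (hk t (hTS t ht)).1
      have h2 := (hk t (hTS t ht)).2.2
      have h5 : p t ≤ x' := single_le_sum (fun i hi => (hp i (hTS i hi)).le) ht
      have h3 : 2 ≤ k t := by
        by_contra h
        have h4 : k t = 1 := by omega
        rw [h4] at h2
        norm_num at h2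
        linarith
      exact_mod_cast h3
    have hLx2 : 2 / 3 * x' ≤ L := by
      rw [hx', hL, mul_sum]
      refine sum_le_sum fun t ht => ?_
      have h1 := hk2 t ht
      have h2 := (hk t (hTS t ht)).2.1
      rw [le_div_iff₀ (by linarith)]
      nlinarith [hp t (hTS t ht)]
    have hL2 : L ≤ 1 / 2 := by linarith
    refine ⟨fun t => if t = t1 then 1 - 2 * L else 0, ?_, ?_, ?_⟩
    · intro t
      by_cases h : t = t1
      · simp only [h, if_true]
        constructor <;> linarith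
      · simp [h]
    · rw [← add_sum_erase S _ ht1]
      have h1 : ∑ t ∈ S.erase t1, ((if t = t1 then 1 - 2 * L else 0) / (k t : ℝ) +
          (1 - if t = t1 then 1 - 2 * L else 0) / (k t + 1)) = L := by
        rw [hL]
        refine sum_congr rfl fun t ht => ?_
        rw [if_neg (ne_of_mem_erase ht)]
        ring
      rw [h1]
      beta_reduce
      rw [if_pos rfl, hk1]
      push_cast
      linarith
    · rw [← add_sum_erase S _ ht1]
      have h1 : ∑ t ∈ S.erase t1, ((if t = t1 then 1 - 2 * L else 0) * p t +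
          (1 - if t = t1 then 1 - 2 * L else 0) / (k t + 1)) = L := by
        rw [hL]
        refine sum_congr rfl fun t ht => ?_
        rw [if_neg (ne_of_mem_erase ht)]
        ring
      rw [h1]
      beta_reduce
      rw [if_pos rfl, hk1]
      push_cast
      refine le_trans (min_le_right _ _) ?_
      -- `L + 1/2 + (1 - 2L) d ≥ 1/2 + d/2 + x'/2`, `d = p1 - 1/2`
      have h2 : p t1 - 1 / 2 ≤ 1 / 2 - x' := by linarith
      rcases le_or_gt L (1 / 4) with h3 | h3
      · nlinarith [mul_nonneg (by linarith : (0:ℝ) ≤ p t1 - 1 / 2) (by linarith : (0:ℝ) ≤ 1 / 4 - L)]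
      · nlinarith [mul_nonneg (by linarith : (0:ℝ) ≤ 1 / 2 - x' - (p t1 - 1 / 2))
          (by linarith : (0:ℝ) ≤ 2 * L - 1 / 2),
          mul_nonneg (by linarith : (0:ℝ) ≤ 1 / 2 - x') (by linarith : (0:ℝ) ≤ x' - L),
          sq_nonneg (x' - 3 / 8)]
  · -- all atoms at most 1 / 2
    push Not at hbig
    set L := ∑ t ∈ S, 1 / ((k t : ℝ) + 1) with hL
    set A := ∑ t ∈ S, (1 / (k t : ℝ) - 1 / ((k t : ℝ) + 1)) with hA
    have hk2 : ∀ t ∈ S, (2 : ℝ) ≤ k t := by
      intro t ht
      have h1 := (hk t ht).1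
      have h2 := (hk t ht).2.2
      have h5 := hbig t ht
      have h3 : 2 ≤ k t := by
        by_contra h
        have h4 : k t = 1 := by omega
        rw [h4] at h2
        norm_num at h2
        linarith
      exact_mod_cast h3
    have hL0 : 0 ≤ L := sum_nonneg fun t ht => by positivity
    have hLx : L ≤ x := sum_le_sum fun t ht => hl t ht
    have hA0 : 0 ≤ A := sum_nonneg fun t ht => by
      have := hl t ht; have := hu t ht; linarith
    have hAL : A ≤ L / 2 := by
      rw [hA, hL, sum_div]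
      refine sum_le_sum fun t ht => ?_
      have h1 := hk2 t ht
      have h2 : 1 / (k t : ℝ) - 1 / ((k t : ℝ) + 1) = 1 / ((k t : ℝ) + 1) * (1 / k t) := by
        field_simp
        ring
      rw [h2, div_eq_mul_inv (1 / ((k t : ℝ) + 1)) 2]
      have h3 : 1 / (k t : ℝ) ≤ 2⁻¹ := by
        rw [div_le_iff₀ (by linarith)]; linarith
      gcongr
    have hd : ∑ t ∈ S, (p t - 1 / ((k t : ℝ) + 1)) = x - L := by
      rw [sum_sub_distrib]
    -- the uniform `θ`
    obtain ⟨θ, hθ0, hθ1, hθA, hθV⟩ : ∃ θ : ℝ, 0 ≤ θ ∧ θ ≤ 1 ∧ L + θ * A ≤ 1 ∧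
        min x (x / 2 + 1 / 4) ≤ L + θ * (x - L) := by
      by_cases h : A ≤ 1 - L
      · refine ⟨1, zero_le_one, le_rfl, by linarith, ?_⟩
        exact le_trans (min_le_left _ _) (by linarith)
      · push Not at h
        have hApos : 0 < A := by linarith
        have hL3 : 2 / 3 < L := by linarith
        refine ⟨(1 - L) / A, div_nonneg (by linarith) hA0, ?_, ?_, ?_⟩
        · rw [div_le_one hApos]; exact h.le
        · rw [div_mul_cancel₀ _ hApos.ne']; linarith
        · refine le_trans (min_le_right _ _) ?_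
          have h1 : 2 * (1 - L) / L ≤ (1 - L) / A := by
            rw [div_le_div_iff₀ (by linarith) hApos]
            nlinarith
          have h2 : L + 2 * (1 - L) / L * (x - L) ≤ L + (1 - L) / A * (x - L) := by
            have := mul_le_mul_of_nonneg_right h1 (by linarith : 0 ≤ x - L)
            linarith
          refine le_trans ?_ h2
          have hLpos : 0 < L := by linarith
          have h3 : 2 * (1 - L) / L * (x - L) = 2 * (1 - L) * (x - L) / L := by ring
          rw [h3]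
          have h4 : x / 2 + 1 / 4 - L ≤ 2 * (1 - L) * (x - L) / L := by
            rw [le_div_iff₀ hLpos]
            -- D = x - L ∈ [0, 1 - L]
            rcases le_or_gt L (4 / 5) with h5 | h5
            · nlinarith [mul_nonneg (by linarith : (0:ℝ) ≤ x - L) (by linarith : (0:ℝ) ≤ 4 / 5 - L),
                mul_nonneg hL0 (by linarith : (0:ℝ) ≤ L - 2 / 3)]
            · nlinarith [mul_nonneg (by linarith : (0:ℝ) ≤ x - L) (by linarith : (0:ℝ) ≤ 1 - L),
                mul_nonneg hL0 (by linarith : (0:ℝ) ≤ 1 - x),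
                mul_nonneg hL0 (by linarith : (0:ℝ) ≤ L - 4 / 5)]
          linarith
    refine ⟨fun _ => θ, fun _ => ⟨hθ0, hθ1⟩, ?_, ?_⟩
    · have h1 : ∑ t ∈ S, (θ / (k t : ℝ) + (1 - θ) / ((k t : ℝ) + 1)) = L + θ * A := by
        rw [hL, hA, mul_sum, ← sum_add_distrib]
        refine sum_congr rfl fun t _ => ?_
        ring
      rw [h1]; exact hθA
    · have h1 : ∑ t ∈ S, (θ * p t + (1 - θ) / ((k t : ℝ) + 1)) = L + θ * (x - L) := by
        rw [← hd, hL, mul_sum, ← sum_add_distrib]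
        refine sum_congr rfl fun t _ => ?_
        ring
      rw [h1]; exact hθV


/-- **The rounding lemma.**  For atoms `p t > 0`, `x = ∑ p t`, `g > 0` there are integers
`k t ≥ 1` and `θ t ∈ [0, 1]`: with weight `θ / k` at `s = k` and `(1 - θ) / (k + 1)` at `s = k + 1`
the sum of the weights is at most one and the value is at least `min x (x / 2 + g / 4) (3 g / 4)`. -/
theorem rounding {ι : Type*} [DecidableEq ι] (S : Finset ι) (p : ι → ℝ) (g : ℝ) (hg : 0 < g)
    (hp : ∀ t ∈ S, 0 < p t) :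
    ∃ (k : ι → ℕ) (θ : ι → ℝ), (∀ t ∈ S, 1 ≤ k t ∧ (k t : ℝ) * (p t * min 1 (g / ∑ u ∈ S, p u)) ≤ g) ∧
      (∀ t, 0 ≤ θ t ∧ θ t ≤ 1) ∧
      ∑ t ∈ S, (θ t / k t + (1 - θ t) / (k t + 1)) ≤ 1 ∧
      min (∑ t ∈ S, p t) (min ((∑ t ∈ S, p t) / 2 + g / 4) (3 * g / 4)) ≤
        ∑ t ∈ S, (θ t / k t * min ((k t : ℝ) * p t) g +
          (1 - θ t) / (k t + 1) * min (((k t : ℝ) + 1) * p t) g) := by
  classical
  set x := ∑ u ∈ S, p u with hxd
  set m := min 1 (g / x) with hm
  rcases S.eq_empty_or_nonempty with hS | hS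
  · refine ⟨fun _ => 1, fun _ => 0, ?_, fun _ => ⟨le_rfl, zero_le_one⟩, ?_, ?_⟩
    · rw [hS]; simp
    · rw [hS]; simp
    · have : x = 0 := by rw [hxd, hS, sum_empty]
      rw [this, hS, sum_empty]
      exact min_le_left _ _
  have hx0 : 0 < x := sum_pos hp hS
  have hm0 : 0 < m := lt_min one_pos (div_pos hg hx0)
  have hm1 : m ≤ 1 := min_le_left _ _
  have hmx : m * x ≤ g := by
    have := min_le_right 1 (g / x)
    calc m * x ≤ g / x * x := by gcongr
      _ = g := by field_simp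
  -- the scaled atoms
  set q : ι → ℝ := fun t => p t * m / g with hq
  have hq0 : ∀ t ∈ S, 0 < q t := fun t ht => by
    have := hp t ht
    positivity
  have hqs : ∑ t ∈ S, q t = m * x / g := by
    rw [hxd, mul_sum, sum_div]
    exact sum_congr rfl fun t _ => by rw [hq]; ring
  have hqx : ∑ t ∈ S, q t ≤ 1 := by
    rw [hqs, div_le_one hg]; exact hmx
  have hq1 : ∀ t ∈ S, q t ≤ 1 := fun t ht =>
    le_trans (single_le_sum (fun i hi => (hq0 i hi).le) ht) hqx
  set k : ι → ℕ := fun t => ⌊1 / q t⌋₊ with hkd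
  have hk : ∀ t ∈ S, 1 ≤ k t ∧ (k t : ℝ) * q t ≤ 1 ∧ 1 < ((k t : ℝ) + 1) * q t := fun t ht =>
    atom (hq0 t ht) (hq1 t ht)
  obtain ⟨θ, h1, h2, h3⟩ := theta S q hq0 hqx k hk
  refine ⟨k, θ, fun t ht => ⟨(hk t ht).1, ?_⟩, h1, h2, ?_⟩
  · have h4 := (hk t ht).2.1
    rw [hq] at h4
    have h5 : (k t : ℝ) * (p t * m / g) = (k t : ℝ) * (p t * m) / g := by ring
    rw [h5, div_le_one hg] at h4
    exact h4
  · have hterm : ∀ t ∈ S, g * (θ t * q t + (1 - θ t) / (k t + 1)) ≤
        θ t / k t * min ((k t : ℝ) * p t) g + (1 - θ t) / (k t + 1) * min (((k t : ℝ) + 1) * p t) g := by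
      intro t ht
      have hkt := (hk t ht).1
      have hk1 : (1 : ℝ) ≤ k t := by exact_mod_cast hkt
      have hpt := hp t ht
      have hqp : g * q t ≤ p t := by
        rw [hq]
        calc g * (p t * m / g) = p t * m := by field_simp
          _ ≤ p t := by nlinarith
      have h6 : (k t : ℝ) * (g * q t) ≤ min ((k t : ℝ) * p t) g := by
        refine le_min (by gcongr) ?_
        have := (hk t ht).2.1
        calc (k t : ℝ) * (g * q t) = g * ((k t : ℝ) * q t) := by ring
          _ ≤ g * 1 := by gcongr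
          _ = g := mul_one g
      have h7 : min (((k t : ℝ) + 1) * p t) g = g := by
        refine min_eq_right ?_
        have := (hk t ht).2.2
        calc g = g * 1 := (mul_one g).symm
          _ ≤ g * (((k t : ℝ) + 1) * q t) := by gcongr
          _ = ((k t : ℝ) + 1) * (g * q t) := by ring
          _ ≤ ((k t : ℝ) + 1) * p t := by gcongr
      rw [h7]
      have h8 : θ t / k t * ((k t : ℝ) * (g * q t)) ≤ θ t / k t * min ((k t : ℝ) * p t) g := by
        have := (h1 t).1
        gcongr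
      have h9 : θ t / k t * ((k t : ℝ) * (g * q t)) = g * (θ t * q t) := by
        field_simp
      have h10 : (1 - θ t) / ((k t : ℝ) + 1) * g = g * ((1 - θ t) / (k t + 1)) := by ring
      rw [h9] at h8
      rw [h10, mul_add]
      linarith
    have hsum : g * ∑ t ∈ S, (θ t * q t + (1 - θ t) / (k t + 1)) ≤
        ∑ t ∈ S, (θ t / k t * min ((k t : ℝ) * p t) g +
          (1 - θ t) / (k t + 1) * min (((k t : ℝ) + 1) * p t) g) := by
      rw [mul_sum]
      exact sum_le_sum hterm
    refine le_trans ?_ hsum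
    have h4 : g * min (∑ t ∈ S, q t) ((∑ t ∈ S, q t) / 2 + 1 / 4) ≤
        g * ∑ t ∈ S, (θ t * q t + (1 - θ t) / (k t + 1)) := by gcongr
    refine le_trans ?_ h4
    rw [hqs]
    have h5 : g * (m * x / g) = m * x := by field_simp
    rw [mul_min_of_nonneg _ _ hg.le, h5]
    have h6 : g * (m * x / g / 2 + 1 / 4) = m * x / 2 + g / 4 := by field_simp
    rw [h6]
    rcases le_or_gt x g with h7 | h7
    · have h8 : m = 1 := by
        rw [hm]
        exact min_eq_left ((le_div_iff₀ hx0).2 (by linarith))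
      rw [h8, one_mul]
      exact le_min (min_le_left _ _) (le_trans (min_le_right _ _) (min_le_left _ _))
    · have h8 : m * x = g := by
        have : m = g / x := by
          rw [hm]
          exact min_eq_right ((div_le_one hx0).2 h7.le)
        rw [this]
        field_simp
      rw [h8]
      refine le_trans (min_le_right _ _) (le_trans (min_le_right _ _) (le_min ?_ ?_)) <;> linarith

end Pool.BL72
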