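import Pool.Agent.H10.BL.Stmts
import Pool.Agent.H72.BL.Rnd0

/-!
# BL, row RND: the rounding lemma with truncation
-/

set_option autoImplicit false

namespace Pool.BL

open Finset

/-- the sum over two consecutive values of `s` -/
lemma rnd_two (S k : ℕ) (h1 : 1 ≤ k) (h2 : k + 1 ≤ S) (a b : ℝ) (f : ℕ → ℝ) :
    ∑ s ∈ Icc 1 S, ((if s = k then a else 0) + (if s = k + 1 then b else 0)) * f s =
      a * f k + b * f (k + 1) := by
  have e1 : ∀ s ∈ Icc 1 S, ((if s = k then a else 0) + (if s = k + 1 then b else 0)) * f s =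
      (if s = k then a * f k else 0) + (if s = k + 1 then b * f (k + 1) else 0) := by
    intro s _
    rw [add_mul]
    congr 1
    · split_ifs with h
      · rw [h]
      · rw [zero_mul]
    · split_ifs with h
      · rw [h]
      · rw [zero_mul]
  rw [sum_congr rfl e1, sum_add_distrib, sum_ite_eq' (Icc 1 S) k, sum_ite_eq' (Icc 1 S) (k + 1),
    if_pos (mem_Icc.2 ⟨h1, by omega⟩), if_pos (mem_Icc.2 ⟨by omega, h2⟩)]

theorem rnd_thm : S_RND := by
  intro J η hη
  have hJ : (0 : ℝ) < (J : ℝ) + 1 := by positivity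
  set η' : ℝ := η / (J + 1) with hη'
  have hη'0 : 0 < η' := div_pos hη hJ
  refine ⟨⌈4 * (J : ℝ) / η'⌉₊ + 1, fun p g hp hg => ?_⟩
  set S : ℕ := ⌈4 * (J : ℝ) / η'⌉₊ + 1 with hS
  set x := ∑ e ∈ Icc 1 J, p e with hx
  set T := (Icc 1 J).filter (fun e => η' ≤ p e) with hT
  set x' := ∑ e ∈ T, p e with hx'
  have hxx : x - η ≤ x' := by
    have h1 := sum_filter_add_sum_filter_not (Icc 1 J) (fun e => η' ≤ p e) p
    have h2 : ∑ e ∈ (Icc 1 J).filter (fun e => ¬ η' ≤ p e), p e ≤ η := by
      calc _ ≤ ∑ e ∈ (Icc 1 J).filter (fun e => ¬ η' ≤ p e), η' :=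
            sum_le_sum fun e he => by
              have := (mem_filter.1 he).2
              push Not at this
              exact this.le
        _ = (((Icc 1 J).filter (fun e => ¬ η' ≤ p e)).card : ℝ) * η' := by
            rw [sum_const, nsmul_eq_mul]
        _ ≤ ((J : ℝ) + 1) * η' := by
            gcongr
            have h3 : ((Icc 1 J).filter (fun e => ¬ η' ≤ p e)).card ≤ J := by
              calc _ ≤ (Icc 1 J).card := card_filter_le _ _
                _ = J := by simp
            have h4 : (((Icc 1 J).filter (fun e => ¬ η' ≤ p e)).card : ℝ) ≤ J := by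
              exact_mod_cast h3
            linarith
        _ = η := by rw [hη']; field_simp
    rw [← hT, ← hx', ← hx] at h1
    linarith
  have hx'x : x' ≤ x := sum_le_sum_of_subset_of_nonneg (filter_subset _ _)
    fun e _ _ => (hp e).1
  -- trivial cases
  have htriv : (min x (min (x / 2 + g / 4) (3 * g / 4)) - η ≤ 0) →
      VB J S p g (min x (min (x / 2 + g / 4) (3 * g / 4)) - η) := by
    intro h
    refine ⟨fun _ _ => 0, fun _ _ => le_rfl, fun _ _ => ?_, ?_, ?_⟩
    · simp
    · simp
    · simpa using h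
  rcases hg.eq_or_lt with hg0 | hg0
  · refine htriv ?_
    have := (min_le_right x (min (x / 2 + g / 4) (3 * g / 4))).trans (min_le_right _ _)
    rw [← hg0] at this
    rw [← hg0]
    linarith
  rcases T.eq_empty_or_nonempty with hTe | hTe
  · refine htriv ?_
    have h1 : x' = 0 := by rw [hx', hTe, sum_empty]
    have := min_le_left x (min (x / 2 + g / 4) (3 * g / 4))
    linarith
  have hpT : ∀ t ∈ T, 0 < p t := fun t ht => lt_of_lt_of_le hη'0 (mem_filter.1 ht).2
  have hx'0 : 0 < x' := sum_pos hpT hTe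
  have hx'J : x' ≤ 2 * J := by
    calc x' ≤ ∑ e ∈ Icc 1 J, p e := hx'x
      _ ≤ ∑ _e ∈ Icc 1 J, (2 : ℝ) := sum_le_sum fun e _ => (hp e).2
      _ = 2 * J := by rw [sum_const, nsmul_eq_mul]; simp; ring
  set g' := min g (2 * x') with hg'
  have hg'0 : 0 < g' := lt_min hg0 (by linarith)
  obtain ⟨k, θ, h1, h2, h3, h4⟩ := Pool.BL72.rounding T p g' hg'0 hpT
  rw [← hx'] at h1 h4
  -- the orders are bounded
  have hkS : ∀ t ∈ T, k t + 1 ≤ S := by
    intro t ht
    have h5 := (h1 t ht).2
    have hk1 := (h1 t ht).1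
    have hk0 : (0 : ℝ) ≤ k t := Nat.cast_nonneg _
    have h6 : (k t : ℝ) * p t ≤ 4 * J := by
      rcases le_or_gt g' x' with h7 | h7
      · have h8 : min 1 (g' / x') = g' / x' := min_eq_right ((div_le_one hx'0).2 h7)
        rw [h8] at h5
        have h9 : (k t : ℝ) * (p t * (g' / x')) = (k t : ℝ) * p t / x' * g' := by ring
        rw [h9] at h5
        have h10 : (k t : ℝ) * p t / x' ≤ 1 := by
          by_contra h
          push Not at h
          nlinarith
        rw [div_le_one hx'0] at h10
        linarith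
      · have h8 : min 1 (g' / x') = 1 := min_eq_left ((le_div_iff₀ hx'0).2 (by linarith))
        rw [h8, mul_one] at h5
        have : g' ≤ 2 * x' := min_le_right _ _
        linarith
    have h7 : (k t : ℝ) ≤ 4 * J / η' := by
      rw [le_div_iff₀ hη'0]
      calc (k t : ℝ) * η' ≤ (k t : ℝ) * p t := by
            gcongr
            exact (mem_filter.1 ht).2
        _ ≤ 4 * J := h6
    have h8 : k t ≤ ⌈4 * (J : ℝ) / η'⌉₊ := by
      have := h7.trans (Nat.le_ceil _)
      exact_mod_cast this
    omega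
  -- the weights
  set w : ℕ → ℕ → ℝ := fun e s => if e ∈ T then
    (if s = k e then θ e / k e else 0) + (if s = k e + 1 then (1 - θ e) / (k e + 1) else 0) else 0
    with hw
  have hsum : ∀ e ∈ Icc 1 J, ∀ f : ℕ → ℝ, ∑ s ∈ Icc 1 S, w e s * f s =
      if e ∈ T then θ e / k e * f (k e) + (1 - θ e) / (k e + 1) * f (k e + 1) else 0 := by
    intro e _ f
    by_cases he : e ∈ T
    · rw [if_pos he, ← rnd_two S (k e) (h1 e he).1 (hkS e he)]
      refine sum_congr rfl fun s _ => ?_
      rw [hw]
      simp only [if_pos he]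
    · rw [if_neg he]
      refine sum_eq_zero fun s _ => ?_
      rw [hw]
      simp only [if_neg he, zero_mul]
  have hsumT : ∀ F : ℕ → ℝ, ∑ e ∈ Icc 1 J, (if e ∈ T then F e else 0) = ∑ e ∈ T, F e := by
    intro F
    rw [← sum_filter]
    refine sum_congr ?_ fun _ _ => rfl
    ext e
    rw [mem_filter]
    exact ⟨fun h => h.2, fun h => ⟨(mem_filter.1 h).1, h⟩⟩
  refine ⟨w, ?_, ?_, ?_, ?_⟩
  · intro e s
    rw [hw]
    have := h2 e
    beta_reduce
    split_ifs <;> first | exact le_rfl | (apply add_nonneg <;> first | exact le_rfl |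
      (apply div_nonneg <;> [skip; positivity]; linarith))
  · intro e he
    have e1 : ∑ s ∈ Icc 1 S, (s : ℝ) * w e s = ∑ s ∈ Icc 1 S, w e s * (s : ℝ) :=
      sum_congr rfl fun s _ => mul_comm _ _
    rw [e1, hsum e he (fun s => (s : ℝ))]
    split_ifs with h
    · have hk1 : (1 : ℝ) ≤ k e := by exact_mod_cast (h1 e h).1
      push_cast
      have e2 : θ e / (k e : ℝ) * k e = θ e := by field_simp
      have e3 : (1 - θ e) / ((k e : ℝ) + 1) * (k e + 1) = 1 - θ e := by field_simp
      rw [e2, e3]
      linarith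
    · exact zero_le_one
  · have e1 : ∑ e ∈ Icc 1 J, ∑ s ∈ Icc 1 S, w e s =
        ∑ e ∈ Icc 1 J, if e ∈ T then θ e / k e + (1 - θ e) / (k e + 1) else 0 := by
      refine sum_congr rfl fun e he => ?_
      have := hsum e he (fun _ => 1)
      simpa using this
    rw [e1, hsumT]
    exact h3
  · have e1 : ∑ e ∈ Icc 1 J, ∑ s ∈ Icc 1 S, w e s * min ((s : ℝ) * p e) g =
        ∑ e ∈ Icc 1 J, if e ∈ T then θ e / k e * min ((k e : ℝ) * p e) g +
          (1 - θ e) / (k e + 1) * min (((k e : ℝ) + 1) * p e) g else 0 := by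
      refine sum_congr rfl fun e he => ?_
      have := hsum e he (fun s => min ((s : ℝ) * p e) g)
      simpa using this
    rw [e1, hsumT]
    have h5 : ∑ t ∈ T, (θ t / k t * min ((k t : ℝ) * p t) g' +
          (1 - θ t) / (k t + 1) * min (((k t : ℝ) + 1) * p t) g') ≤
        ∑ t ∈ T, (θ t / k t * min ((k t : ℝ) * p t) g +
          (1 - θ t) / (k t + 1) * min (((k t : ℝ) + 1) * p t) g) := by
      refine sum_le_sum fun t ht => ?_
      have hgg : g' ≤ g := min_le_left _ _
      have := h2 t
      have hθ1 : 0 ≤ 1 - θ t := by linarith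
      have hθ0 := this.1
      gcongr
    refine le_trans ?_ (h4.trans h5)
    have h6 : min x' (min (x' / 2 + g / 4) (3 * g / 4)) ≤
        min x' (min (x' / 2 + g' / 4) (3 * g' / 4)) := by
      rcases le_or_gt g (2 * x') with h7 | h7
      · have : g' = g := min_eq_left h7
        rw [this]
      · have : g' = 2 * x' := min_eq_right h7.le
        rw [this]
        refine le_min (min_le_left _ _) (le_min ?_ ?_)
        · exact (min_le_left _ _).trans (by linarith)
        · exact (min_le_left _ _).trans (by linarith)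
    refine le_trans ?_ h6
    refine le_min ?_ (le_min ?_ ?_)
    · have := min_le_left x (min (x / 2 + g / 4) (3 * g / 4))
      linarith
    · have := (min_le_right x (min (x / 2 + g / 4) (3 * g / 4))).trans (min_le_left _ _)
      linarith
    · have := (min_le_right x (min (x / 2 + g / 4) (3 * g / 4))).trans (min_le_right _ _)
      linarith

end Pool.BL
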