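import Pool.Agent.H72.BL.RNQ

/-!
# Truncation of weights, and exact rounding with explicit weights
-/

set_option autoImplicit false

namespace Pool.BL72

open Finset Pool.BL

/-- a possible gain with weights of any order -/
def VBi (J : ℕ) (p : ℕ → ℝ) (g V : ℝ) : Prop := ∃ S : ℕ, VB J S p g V

/-! ## Truncation -/

/-- TRU -/
def S_TRU : Prop := ∀ (J : ℕ) (G η : ℝ), 0 ≤ G → 0 < η → ∃ S : ℕ, ∀ (p : ℕ → ℝ) (g V : ℝ),
  (∀ e, 0 ≤ p e) → 0 ≤ g → g ≤ G → VBi J p g V → VB J S p g (V - η)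

theorem tru_thm : S_TRU := by
  intro J G η hG hη
  have hJ : (0 : ℝ) < (J : ℝ) + 1 := by positivity
  set η' : ℝ := η / (J + 1) with hη'
  have hη'0 : 0 < η' := div_pos hη hJ
  refine ⟨⌈G / η'⌉₊ + 1, fun p g V hp hg hgG hV => ?_⟩
  set S : ℕ := ⌈G / η'⌉₊ + 1 with hS
  obtain ⟨S', w, h0, h1, h2, h3⟩ := hV
  have hSG : G ≤ (S : ℝ) * η' := by
    have h4 : G / η' ≤ (⌈G / η'⌉₊ : ℝ) := Nat.le_ceil _
    rw [div_le_iff₀ hη'0] at h4
    have : (S : ℝ) = (⌈G / η'⌉₊ : ℝ) + 1 := by rw [hS]; push_cast; ring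
    rw [this]
    nlinarith
  set w' : ℕ → ℕ → ℝ := fun e s => if p e < η' then 0 else
    ∑ u ∈ (Icc 1 S').filter (fun u => min u S = s), w e u with hw'
  have hmaps : ∀ u ∈ Icc 1 S', min u S ∈ Icc 1 S := by
    intro u hu
    rw [mem_Icc] at hu ⊢
    exact ⟨le_min hu.1 (by omega), min_le_right _ _⟩
  have key : ∀ e, ∀ f : ℕ → ℝ, ∑ s ∈ Icc 1 S, w' e s * f s =
      if p e < η' then 0 else ∑ u ∈ Icc 1 S', w e u * f (min u S) := by
    intro e f
    by_cases hpe : p e < η'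
    · rw [if_pos hpe]
      refine sum_eq_zero fun s _ => ?_
      rw [hw']
      simp only [if_pos hpe, zero_mul]
    · rw [if_neg hpe, ← sum_fiberwise_of_maps_to hmaps (fun u => w e u * f (min u S))]
      refine sum_congr rfl fun s _ => ?_
      rw [hw']
      simp only [if_neg hpe]
      rw [sum_mul]
      refine sum_congr rfl fun u hu => ?_
      rw [(mem_filter.1 hu).2]
  refine ⟨w', ?_, ?_, ?_, ?_⟩
  · intro e s
    rw [hw']
    beta_reduce
    split_ifs
    · exact le_rfl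
    · exact sum_nonneg fun u _ => h0 e u
  · intro e he
    have e1 : ∑ s ∈ Icc 1 S, (s : ℝ) * w' e s = ∑ s ∈ Icc 1 S, w' e s * (s : ℝ) :=
      sum_congr rfl fun s _ => mul_comm _ _
    rw [e1, key e (fun s => (s : ℝ))]
    split_ifs
    · exact zero_le_one
    · refine le_trans (sum_le_sum fun u _ => ?_) (h1 e he)
      rw [mul_comm]
      refine mul_le_mul_of_nonneg_right ?_ (h0 e u)
      exact_mod_cast min_le_left u S
  · refine le_trans (sum_le_sum fun e _ => ?_) h2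
    have e1 : ∑ s ∈ Icc 1 S, w' e s = ∑ s ∈ Icc 1 S, w' e s * (fun _ => (1 : ℝ)) s :=
      sum_congr rfl fun s _ => (mul_one _).symm
    rw [e1, key e (fun _ => 1)]
    split_ifs
    · exact sum_nonneg fun s _ => h0 e s
    · exact le_of_eq (sum_congr rfl fun u _ => mul_one _)
  · have hterm : ∀ e ∈ Icc 1 J, ∑ s ∈ Icc 1 S', w e s * min ((s : ℝ) * p e) g - η' ≤
        ∑ s ∈ Icc 1 S, w' e s * min ((s : ℝ) * p e) g := by
      intro e he
      rw [key e (fun s => min ((s : ℝ) * p e) g)]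
      split_ifs with hpe
      · have h5 : ∑ s ∈ Icc 1 S', w e s * min ((s : ℝ) * p e) g ≤ p e := by
          calc _ ≤ ∑ s ∈ Icc 1 S', ((s : ℝ) * w e s) * p e := by
                refine sum_le_sum fun s _ => ?_
                have : w e s * min ((s : ℝ) * p e) g ≤ w e s * ((s : ℝ) * p e) :=
                  mul_le_mul_of_nonneg_left (min_le_left _ _) (h0 e s)
                linarith
            _ = (∑ s ∈ Icc 1 S', (s : ℝ) * w e s) * p e := by rw [sum_mul]
            _ ≤ 1 * p e := mul_le_mul_of_nonneg_right (h1 e he) (hp e)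
            _ = p e := one_mul _
        linarith
      · push Not at hpe
        have h5 : ∑ u ∈ Icc 1 S', w e u * min (((min u S : ℕ) : ℝ) * p e) g =
            ∑ s ∈ Icc 1 S', w e s * min ((s : ℝ) * p e) g := by
          refine sum_congr rfl fun u _ => ?_
          rcases le_total u S with hu | hu
          · rw [min_eq_left hu]
          · have hSp : g ≤ (S : ℝ) * p e := by
              have : (S : ℝ) * η' ≤ (S : ℝ) * p e := by gcongr
              linarith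
            have hup : g ≤ (u : ℝ) * p e := by
              refine le_trans hSp ?_
              have : (S : ℝ) ≤ u := by exact_mod_cast hu
              exact mul_le_mul_of_nonneg_right this (hp e)
            rw [min_eq_right (a := u) (b := S) hu, min_eq_right hSp, min_eq_right hup]
        rw [h5]
        linarith
    have hJη : (∑ _e ∈ Icc 1 J, η') ≤ η := by
      rw [sum_const, nsmul_eq_mul, Nat.card_Icc]
      have : ((J + 1 - 1 : ℕ) : ℝ) = J := by simp
      rw [this]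
      have h6 : ((J : ℝ) + 1) * η' = η := by rw [hη']; field_simp
      nlinarith
    have hall := sum_le_sum hterm
    rw [sum_sub_distrib] at hall
    linarith

/-! ## Monotonicity and slack -/

theorem vbi_mono {J : ℕ} {p p' : ℕ → ℝ} {g g' V V' : ℝ} (h : VBi J p g V)
    (hp : ∀ e, p e ≤ p' e) (hg : g ≤ g') (hV : V' ≤ V) : VBi J p' g' V' := by
  obtain ⟨S, w, h0, h1, h2, h3⟩ := h
  refine ⟨S, w, h0, h1, h2, hV.trans (h3.trans (sum_le_sum fun e _ => sum_le_sum fun s _ => ?_))⟩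
  have := h0 e s
  have := hp e
  gcongr

/-- decreasing the gain by `y` costs at most `y` -/
theorem vbi_gain {J : ℕ} {p : ℕ → ℝ} {g V y : ℝ} (hy : 0 ≤ y) (h : VBi J p (g + y) V) :
    VBi J p g (V - y) := by
  obtain ⟨S, w, h0, h1, h2, h3⟩ := h
  refine ⟨S, w, h0, h1, h2, ?_⟩
  have hterm : ∑ e ∈ Icc 1 J, ∑ s ∈ Icc 1 S, w e s * min ((s : ℝ) * p e) (g + y) ≤
      ∑ e ∈ Icc 1 J, ∑ s ∈ Icc 1 S, (w e s * min ((s : ℝ) * p e) g + w e s * y) := by
    refine sum_le_sum fun e _ => sum_le_sum fun s _ => ?_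
    rw [← mul_add]
    refine mul_le_mul_of_nonneg_left ?_ (h0 e s)
    rcases le_total ((s : ℝ) * p e) g with h4 | h4
    · rw [min_eq_left h4]
      exact (min_le_left _ _).trans (by linarith)
    · rw [min_eq_right h4]
      exact min_le_right _ _
  have e1 : ∑ e ∈ Icc 1 J, ∑ s ∈ Icc 1 S, (w e s * min ((s : ℝ) * p e) g + w e s * y) =
      (∑ e ∈ Icc 1 J, ∑ s ∈ Icc 1 S, w e s * min ((s : ℝ) * p e) g) +
        (∑ e ∈ Icc 1 J, ∑ s ∈ Icc 1 S, w e s) * y := by
    simp only [sum_add_distrib, sum_mul]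
  rw [e1] at hterm
  nlinarith

/-- homogeneity -/
theorem vbi_smul {J : ℕ} {p : ℕ → ℝ} {g V c : ℝ} (hc : 0 ≤ c) (h : VBi J p g V) :
    VBi J (fun e => c * p e) (c * g) (c * V) := by
  obtain ⟨S, w, h0, h1, h2, h3⟩ := h
  refine ⟨S, w, h0, h1, h2, ?_⟩
  have e1 : ∑ e ∈ Icc 1 J, ∑ s ∈ Icc 1 S, w e s * min ((s : ℝ) * (c * p e)) (c * g) =
      c * ∑ e ∈ Icc 1 J, ∑ s ∈ Icc 1 S, w e s * min ((s : ℝ) * p e) g := by
    rw [mul_sum]
    refine sum_congr rfl fun e _ => ?_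
    rw [mul_sum]
    refine sum_congr rfl fun s _ => ?_
    have : (s : ℝ) * (c * p e) = c * ((s : ℝ) * p e) := by ring
    rw [this, ← mul_min_of_nonneg _ _ hc]
    ring
  rw [e1]
  exact mul_le_mul_of_nonneg_left h3 hc

/-! ## Exact rounding -/

/-- rounding with the budget `ω` -/
theorem rounding3 {ι : Type*} [DecidableEq ι] (S : Finset ι) (p : ι → ℝ) (g ω : ℝ) (hg : 0 < g)
    (hω0 : 0 ≤ ω) (hω1 : ω ≤ 1) (hp : ∀ t ∈ S, 0 < p t) :
    ∃ (k : ι → ℕ) (y z : ι → ℝ), (∀ t ∈ S, 1 ≤ k t ∧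
        0 ≤ y t ∧ 0 ≤ z t ∧ (k t : ℝ) * y t + ((k t : ℝ) + 1) * z t ≤ 1) ∧
      ∑ t ∈ S, (y t + z t) ≤ ω ∧
      Vq (∑ t ∈ S, p t) (ω * g) ≤
        ∑ t ∈ S, (y t * min ((k t : ℝ) * p t) g + z t * min (((k t : ℝ) + 1) * p t) g) := by
  classical
  set x := ∑ t ∈ S, p t with hx
  have vle : Vq x (ω * g) ≤ ω * g := (min_le_right _ _).trans ((min_le_right _ _).trans
    (min_le_right _ _))
  by_cases hbig : ∃ t0 ∈ S, g < p t0
  · -- one layer above the gain: weight `ω` at `s = 1`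
    obtain ⟨t0, ht0, hpt0⟩ := hbig
    refine ⟨fun _ => 1, fun t => if t = t0 then ω else 0, fun _ => 0, ?_, ?_, ?_⟩
    · intro t _
      refine ⟨le_rfl, ?_, le_rfl, ?_⟩
      · by_cases h : t = t0 <;> simp [h, hω0]
      · by_cases h : t = t0 <;> simp [h, hω1]
    · simp only [add_zero]
      rw [sum_ite_eq' S t0, if_pos ht0]
    · have e1 : ∑ t ∈ S, ((if t = t0 then ω else 0) * min (((1 : ℕ) : ℝ) * p t) g +
          0 * min ((((1 : ℕ) : ℝ) + 1) * p t) g) = ω * g := by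
        have e2 : ∀ t ∈ S, ((if t = t0 then ω else 0) * min (((1 : ℕ) : ℝ) * p t) g +
            0 * min ((((1 : ℕ) : ℝ) + 1) * p t) g) = if t = t0 then ω * g else 0 := by
          intro t _
          split_ifs with h
          · rw [h, Nat.cast_one, one_mul, zero_mul, add_zero, min_eq_right hpt0.le]
          · simp
        rw [sum_congr rfl e2, sum_ite_eq' S t0, if_pos ht0]
      rw [e1]
      exact vle
  push Not at hbig
  have hex : ∀ t : ι, ∃ (k : ℕ) (yA zA yB zB yC zC : ℝ), t ∈ S →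
      (1 ≤ k ∧ (k : ℝ) * p t ≤ g ∧ g ≤ ((k : ℝ) + 1) * p t) ∧
      (0 ≤ yA ∧ 0 ≤ zA ∧ (k : ℝ) * yA + ((k : ℝ) + 1) * zA ≤ 1 ∧ yA + zA ≤ 2 * p t / g ∧
        p t ≤ (k : ℝ) * p t * yA + g * zA) ∧
      (0 ≤ yB ∧ 0 ≤ zB ∧ (k : ℝ) * yB + ((k : ℝ) + 1) * zB ≤ 1 ∧ yB + zB ≤ p t / g ∧
        33 / 40 * p t ≤ (k : ℝ) * p t * yB + g * zB) ∧
      (0 ≤ yC ∧ 0 ≤ zC ∧ (k : ℝ) * yC + ((k : ℝ) + 1) * zC ≤ 1 ∧ yC + zC ≤ p t / (2 * g) ∧
        p t / 2 ≤ (k : ℝ) * p t * yC + g * zC) := by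
    intro t
    by_cases ht : t ∈ S
    · obtain ⟨k, a1, a2, a3, ⟨yA, zA, hA⟩, ⟨yB, zB, hB⟩, ⟨yC, zC, hC⟩⟩ :=
        layer (hp t ht) (hbig t ht)
      exact ⟨k, yA, zA, yB, zB, yC, zC, fun _ => ⟨⟨a1, a2, a3⟩, hA, hB, hC⟩⟩
    · exact ⟨1, 0, 0, 0, 0, 0, 0, fun h => absurd h ht⟩
  choose k yA zA yB zB yC zC H using hex
  have main : ∀ α β γ : ℝ, 0 ≤ α → 0 ≤ β → 0 ≤ γ → α + β + γ ≤ 1 →
      (α * 2 + β + γ / 2) * x ≤ ω * g →
      ∃ (k : ι → ℕ) (y z : ι → ℝ), (∀ t ∈ S, 1 ≤ k t ∧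
        0 ≤ y t ∧ 0 ≤ z t ∧ (k t : ℝ) * y t + ((k t : ℝ) + 1) * z t ≤ 1) ∧
      ∑ t ∈ S, (y t + z t) ≤ ω ∧ (α + 33 / 40 * β + γ / 2) * x ≤
        ∑ t ∈ S, (y t * min ((k t : ℝ) * p t) g + z t * min (((k t : ℝ) + 1) * p t) g) := by
    intro α β γ hα hβ hγ hsum hw
    refine ⟨k, fun t => α * yA t + β * yB t + γ * yC t, fun t => α * zA t + β * zB t + γ * zC t,
      ?_, ?_, ?_⟩
    · intro t ht
      obtain ⟨⟨a1, a2, a3⟩, ⟨A1, A2, A3, A4, A5⟩, ⟨B1, B2, B3, B4, B5⟩, ⟨C1, C2, C3, C4, C5⟩⟩ :=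
        H t ht
      refine ⟨a1, by positivity, by positivity, ?_⟩
      have e1 : (k t : ℝ) * (α * yA t + β * yB t + γ * yC t) +
          ((k t : ℝ) + 1) * (α * zA t + β * zB t + γ * zC t) =
          α * ((k t : ℝ) * yA t + ((k t : ℝ) + 1) * zA t) +
          β * ((k t : ℝ) * yB t + ((k t : ℝ) + 1) * zB t) +
          γ * ((k t : ℝ) * yC t + ((k t : ℝ) + 1) * zC t) := by ring
      rw [e1]
      have := mul_le_mul_of_nonneg_left A3 hα
      have := mul_le_mul_of_nonneg_left B3 hβ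
      have := mul_le_mul_of_nonneg_left C3 hγ
      linarith
    · have hterm : ∀ t ∈ S, (α * yA t + β * yB t + γ * yC t) + (α * zA t + β * zB t + γ * zC t) ≤
          (α * 2 + β + γ / 2) / g * p t := by
        intro t ht
        obtain ⟨⟨a1, a2, a3⟩, ⟨A1, A2, A3, A4, A5⟩, ⟨B1, B2, B3, B4, B5⟩, ⟨C1, C2, C3, C4, C5⟩⟩ :=
          H t ht
        have f1 := mul_le_mul_of_nonneg_left A4 hα
        have f2 := mul_le_mul_of_nonneg_left B4 hβ
        have f3 := mul_le_mul_of_nonneg_left C4 hγ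
        have e1 : (α * 2 + β + γ / 2) / g * p t =
            α * (2 * p t / g) + β * (p t / g) + γ * (p t / (2 * g)) := by
          field_simp
        rw [e1]
        linarith
      calc _ ≤ ∑ t ∈ S, (α * 2 + β + γ / 2) / g * p t := sum_le_sum hterm
        _ = (α * 2 + β + γ / 2) * x / g := by rw [← mul_sum, ← hx]; ring
        _ ≤ ω := by rw [div_le_iff₀ hg]; exact hw
    · rw [hx, mul_sum]
      refine sum_le_sum fun t ht => ?_
      obtain ⟨⟨a1, a2, a3⟩, ⟨A1, A2, A3, A4, A5⟩, ⟨B1, B2, B3, B4, B5⟩, ⟨C1, C2, C3, C4, C5⟩⟩ :=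
        H t ht
      rw [min_eq_left a2, min_eq_right a3]
      have f1 := mul_le_mul_of_nonneg_left A5 hα
      have f2 := mul_le_mul_of_nonneg_left B5 hβ
      have f3 := mul_le_mul_of_nonneg_left C5 hγ
      nlinarith
  have hx0 : 0 ≤ x := sum_nonneg fun t ht => (hp t ht).le
  set G := ω * g with hG
  have hG0 : 0 ≤ G := mul_nonneg hω0 hg.le
  rcases le_or_gt x (G / 2) with c1 | c1
  · obtain ⟨k, y, z, h1, h2, h3⟩ := main 1 0 0 (by norm_num) le_rfl le_rfl (by norm_num)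
      (by linarith)
    refine ⟨k, y, z, h1, h2, le_trans ?_ h3⟩
    refine (min_le_left _ _).trans (by linarith)
  have hxpos : 0 < x := by linarith
  have l2 : G / x * x = G := by field_simp
  rcases le_or_gt x G with c2 | c2
  · have l0 : 0 ≤ G / x - 1 := by
      rw [sub_nonneg, one_le_div hxpos]; exact c2
    have l1 : G / x - 1 ≤ 1 := by
      have : G / x ≤ 2 := by rw [div_le_iff₀ hxpos]; linarith
      linarith
    obtain ⟨k, y, z, h1, h2, h3⟩ := main (G / x - 1) (1 - (G / x - 1)) 0 l0 (by linarith) le_rfl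
      (by linarith) (by nlinarith)
    refine ⟨k, y, z, h1, h2, le_trans ?_ h3⟩
    refine (min_le_right _ _).trans ((min_le_left _ _).trans (le_of_eq ?_))
    have : (G / x - 1 + 33 / 40 * (1 - (G / x - 1)) + 0 / 2) * x =
        7 / 40 * (G / x * x) + 13 / 20 * x := by ring
    rw [this, l2]
    ring
  rcases le_or_gt x (2 * G) with c3 | c3
  · have l0 : 0 ≤ 2 * (G / x) - 1 := by
      have : 1 / 2 ≤ G / x := by rw [le_div_iff₀ hxpos]; linarith
      linarith
    have l1 : 2 * (G / x) - 1 ≤ 1 := by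
      have : G / x ≤ 1 := by rw [div_le_one hxpos]; exact c2.le
      linarith
    obtain ⟨k, y, z, h1, h2, h3⟩ := main 0 (2 * (G / x) - 1) (1 - (2 * (G / x) - 1)) le_rfl l0
      (by linarith) (by linarith) (by nlinarith)
    refine ⟨k, y, z, h1, h2, le_trans ?_ h3⟩
    refine (min_le_right _ _).trans ((min_le_right _ _).trans ((min_le_left _ _).trans
      (le_of_eq ?_)))
    have : (0 + 33 / 40 * (2 * (G / x) - 1) + (1 - (2 * (G / x) - 1)) / 2) * x =
        13 / 20 * (G / x * x) + 7 / 40 * x := by ring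
    rw [this, l2]
    ring
  · have l1 : 2 * (G / x) ≤ 1 := by
      have : G / x ≤ 1 / 2 := by rw [div_le_iff₀ hxpos]; linarith
      linarith
    have l0 : 0 ≤ G / x := by positivity
    obtain ⟨k, y, z, h1, h2, h3⟩ := main 0 0 (2 * (G / x)) le_rfl le_rfl (by linarith)
      (by linarith) (by nlinarith)
    refine ⟨k, y, z, h1, h2, le_trans ?_ h3⟩
    refine vle.trans (le_of_eq ?_)
    have : (0 + 33 / 40 * 0 + 2 * (G / x) / 2) * x = G / x * x := by ring
    rw [this, l2]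

/-- RNX: explicit weights `w` on the layers of `L`, budget `ω` for the other layers -/
def S_RNX : Prop := ∀ (J S0 : ℕ) (L : Finset ℕ) (p : ℕ → ℝ) (g ω : ℝ) (w : ℕ → ℕ → ℝ),
  (∀ e, 0 ≤ p e) → 0 ≤ g → 0 ≤ ω → L ⊆ Icc 1 J → (∀ e s, 0 ≤ w e s) →
  (∀ e ∈ L, ∑ s ∈ Icc 1 S0, (s : ℝ) * w e s ≤ 1) →
  (∑ e ∈ L, ∑ s ∈ Icc 1 S0, w e s) + ω ≤ 1 →
  VBi J p g ((∑ e ∈ L, ∑ s ∈ Icc 1 S0, w e s * min ((s : ℝ) * p e) g) +
    Vq (∑ e ∈ Icc 1 J \ L, p e) (ω * g))

theorem rnx_thm : S_RNX := by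
  intro J S0 L p g ω w hp hg hω hL h0 h1 h2
  classical
  have hω1 : ω ≤ 1 := by
    have : 0 ≤ ∑ e ∈ L, ∑ s ∈ Icc 1 S0, w e s := sum_nonneg fun e _ => sum_nonneg fun s _ => h0 e s
    linarith
  rcases hg.eq_or_lt with hg0 | hg0
  · -- no gain
    refine ⟨0, fun _ _ => 0, fun _ _ => le_rfl, fun _ _ => by simp, by simp, ?_⟩
    have e1 : ∑ e ∈ L, ∑ s ∈ Icc 1 S0, w e s * min ((s : ℝ) * p e) g = 0 := by
      refine sum_eq_zero fun e _ => sum_eq_zero fun s _ => ?_
      rw [← hg0, min_eq_right (mul_nonneg (Nat.cast_nonneg _) (hp e)), mul_zero]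
    have e2 : Vq (∑ e ∈ Icc 1 J \ L, p e) (ω * g) ≤ ω * g := (min_le_right _ _).trans
      ((min_le_right _ _).trans (min_le_right _ _))
    rw [← hg0, mul_zero] at e2
    rw [← hg0, mul_zero]
    rw [← hg0] at e1
    rw [e1]
    simpa using e2
  set T := (Icc 1 J \ L).filter (fun e => 0 < p e) with hT
  have hxT : ∑ e ∈ Icc 1 J \ L, p e = ∑ e ∈ T, p e := by
    rw [hT, sum_filter_of_ne]
    intro e _ hne
    exact lt_of_le_of_ne (hp e) (Ne.symm hne)
  obtain ⟨k, y, z, a1, a2, a3⟩ := rounding3 T p g ω hg0 hω hω1 (fun t ht => (mem_filter.1 ht).2)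
  have hTL : ∀ e ∈ T, e ∉ L := fun e he => (mem_sdiff.1 (mem_filter.1 he).1).2
  have hTJ : ∀ e ∈ T, e ∈ Icc 1 J := fun e he => (mem_sdiff.1 (mem_filter.1 he).1).1
  set S := max S0 (T.sup k + 1) with hS
  have hkS : ∀ t ∈ T, k t + 1 ≤ S := fun t ht =>
    le_trans (Nat.succ_le_succ (le_sup ht)) (le_max_right _ _)
  have hS0 : S0 ≤ S := le_max_left _ _
  set w' : ℕ → ℕ → ℝ := fun e s => if e ∈ L then (if s ≤ S0 then w e s else 0) else
    if e ∈ T then (if s = k e then y e else 0) + (if s = k e + 1 then z e else 0) else 0 with hw'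
  have hsum : ∀ e, ∀ f : ℕ → ℝ, ∑ s ∈ Icc 1 S, w' e s * f s =
      if e ∈ L then ∑ s ∈ Icc 1 S0, w e s * f s else
      if e ∈ T then y e * f (k e) + z e * f (k e + 1) else 0 := by
    intro e f
    by_cases he : e ∈ L
    · rw [if_pos he]
      have e1 : ∀ s ∈ Icc 1 S, w' e s * f s = if s ≤ S0 then w e s * f s else 0 := by
        intro s _
        rw [hw']
        simp only [if_pos he]
        split_ifs
        · rfl
        · rw [zero_mul]
      rw [sum_congr rfl e1, ← sum_filter]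
      refine sum_congr ?_ fun _ _ => rfl
      ext s
      rw [mem_filter, mem_Icc, mem_Icc]
      constructor
      · rintro ⟨⟨b1, b2⟩, b3⟩; exact ⟨b1, b3⟩
      · rintro ⟨b1, b3⟩; exact ⟨⟨b1, by omega⟩, b3⟩
    · rw [if_neg he]
      by_cases het : e ∈ T
      · rw [if_pos het, ← rnq_two S (k e) (a1 e het).1 (hkS e het)]
        refine sum_congr rfl fun s _ => ?_
        rw [hw']
        simp only [if_neg he, if_pos het]
      · rw [if_neg het]
        refine sum_eq_zero fun s _ => ?_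
        rw [hw']
        simp only [if_neg he, if_neg het, zero_mul]
  -- splitting a sum over `Icc 1 J`
  have hsplit : ∀ F G : ℕ → ℝ, ∑ e ∈ Icc 1 J, (if e ∈ L then F e else if e ∈ T then G e else 0) =
      ∑ e ∈ L, F e + ∑ e ∈ T, G e := by
    intro F G
    rw [← sum_sdiff hL, add_comm]
    congr 1
    · exact sum_congr rfl fun e he => if_pos he
    · rw [hT, sum_filter]
      refine sum_congr rfl fun e he => ?_
      rw [if_neg (mem_sdiff.1 he).2]
      have hiff : e ∈ (Icc 1 J \ L).filter (fun e => 0 < p e) ↔ 0 < p e := by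
        rw [mem_filter]
        exact ⟨fun h => h.2, fun h => ⟨he, h⟩⟩
      by_cases hpe : 0 < p e
      · rw [if_pos (hiff.2 hpe), if_pos hpe]
      · rw [if_neg (mt hiff.1 hpe), if_neg hpe]
  refine ⟨S, w', ?_, ?_, ?_, ?_⟩
  · intro e s
    rw [hw']
    beta_reduce
    by_cases he : e ∈ L
    · rw [if_pos he]
      split_ifs
      · exact h0 e s
      · exact le_rfl
    · rw [if_neg he]
      by_cases het : e ∈ T
      · have b1 := (a1 e het).2.1
        have b2 := (a1 e het).2.2.1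
        rw [if_pos het]
        split_ifs <;> linarith
      · rw [if_neg het]
  · intro e _
    have e1 : ∑ s ∈ Icc 1 S, (s : ℝ) * w' e s = ∑ s ∈ Icc 1 S, w' e s * (s : ℝ) :=
      sum_congr rfl fun s _ => mul_comm _ _
    rw [e1, hsum e (fun s => (s : ℝ))]
    split_ifs with he het
    · have e2 : ∑ s ∈ Icc 1 S0, w e s * (s : ℝ) = ∑ s ∈ Icc 1 S0, (s : ℝ) * w e s :=
        sum_congr rfl fun s _ => mul_comm _ _
      rw [e2]
      exact h1 e he
    · have := (a1 e het).2.2.2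
      push_cast
      linarith
    · exact zero_le_one
  · have e1 : ∑ e ∈ Icc 1 J, ∑ s ∈ Icc 1 S, w' e s =
        ∑ e ∈ Icc 1 J, (if e ∈ L then ∑ s ∈ Icc 1 S0, w e s else
          if e ∈ T then y e + z e else 0) := by
      refine sum_congr rfl fun e _ => ?_
      have := hsum e (fun _ => 1)
      simpa using this
    rw [e1, hsplit]
    linarith
  · have e1 : ∑ e ∈ Icc 1 J, ∑ s ∈ Icc 1 S, w' e s * min ((s : ℝ) * p e) g =
        ∑ e ∈ Icc 1 J, (if e ∈ L then ∑ s ∈ Icc 1 S0, w e s * min ((s : ℝ) * p e) g else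
          if e ∈ T then y e * min ((k e : ℝ) * p e) g +
            z e * min (((k e : ℝ) + 1) * p e) g else 0) := by
      refine sum_congr rfl fun e _ => ?_
      have := hsum e (fun s => min ((s : ℝ) * p e) g)
      simpa using this
    rw [e1, hsplit, hxT]
    linarith

end Pool.BL72
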