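import Pool.Agent.H10.BL.Stmts
import Pool.Agent.H72.BL.Rnd0

/-!
# BL, row RN0: the rounding lemma
-/

set_option autoImplicit false

namespace Pool.BL

open Finset

theorem rn0_thm : S_RN0 := by
  intro ι _ _ p hp hx
  have hq1 : ∀ t, p t ≤ 1 := fun t =>
    le_trans (single_le_sum (fun i _ => (hp i).le) (mem_univ t)) hx
  obtain ⟨θ, h1, h2, h3⟩ := Pool.BL72.theta univ p (fun t _ => hp t) hx (fun t => ⌊1 / p t⌋₊)
    (fun t _ => Pool.BL72.atom (hp t) (hq1 t))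
  refine ⟨fun t => ⌊1 / p t⌋₊, fun t => θ t / (⌊1 / p t⌋₊ : ℕ), fun t => (1 - θ t) / ((⌊1 / p t⌋₊ : ℕ) + 1),
    ?_, ?_, ?_⟩
  · intro t
    obtain ⟨a1, a2, a3⟩ := Pool.BL72.atom (hp t) (hq1 t)
    have hk : (1 : ℝ) ≤ (⌊1 / p t⌋₊ : ℕ) := by exact_mod_cast a1
    have hθ := h1 t
    refine ⟨a1, a2, a3.le, div_nonneg hθ.1 (by linarith), div_nonneg (by linarith) (by linarith), ?_⟩
    have e1 : ((⌊1 / p t⌋₊ : ℕ) : ℝ) * (θ t / (⌊1 / p t⌋₊ : ℕ)) = θ t := by field_simp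
    have e2 : (((⌊1 / p t⌋₊ : ℕ) : ℝ) + 1) * ((1 - θ t) / ((⌊1 / p t⌋₊ : ℕ) + 1)) = 1 - θ t := by
      field_simp
    rw [e1, e2]
    linarith
  · simpa using h2
  · refine h3.trans (sum_le_sum fun t _ => ?_)
    obtain ⟨a1, a2, a3⟩ := Pool.BL72.atom (hp t) (hq1 t)
    have hk : (1 : ℝ) ≤ (⌊1 / p t⌋₊ : ℕ) := by exact_mod_cast a1
    have e1 : ((⌊1 / p t⌋₊ : ℕ) : ℝ) * p t * (θ t / (⌊1 / p t⌋₊ : ℕ)) = θ t * p t := by field_simp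
    rw [e1]

end Pool.BL
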