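import Mathlib

/-!
# The rounding lemma, layer by layer
-/

set_option autoImplicit false

namespace Pool.BL72

open Finset

/-- one layer `0 < p ≤ g`: `k = ⌊g / p⌋` and three allocations -/
lemma layer {p g : ℝ} (h0 : 0 < p) (h1 : p ≤ g) :
    ∃ k : ℕ, 1 ≤ k ∧ (k : ℝ) * p ≤ g ∧ g ≤ ((k : ℝ) + 1) * p ∧
      (∃ y z : ℝ, 0 ≤ y ∧ 0 ≤ z ∧ (k : ℝ) * y + ((k : ℝ) + 1) * z ≤ 1 ∧ y + z ≤ 2 * p / g ∧
        p ≤ (k : ℝ) * p * y + g * z) ∧
      (∃ y z : ℝ, 0 ≤ y ∧ 0 ≤ z ∧ (k : ℝ) * y + ((k : ℝ) + 1) * z ≤ 1 ∧ y + z ≤ p / g ∧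
        33 / 40 * p ≤ (k : ℝ) * p * y + g * z) ∧
      (∃ y z : ℝ, 0 ≤ y ∧ 0 ≤ z ∧ (k : ℝ) * y + ((k : ℝ) + 1) * z ≤ 1 ∧ y + z ≤ p / (2 * g) ∧
        p / 2 ≤ (k : ℝ) * p * y + g * z) := by
  have hg : 0 < g := lt_of_lt_of_le h0 h1
  have h2 : (1 : ℝ) ≤ g / p := by rw [le_div_iff₀ h0]; linarith
  set k : ℕ := ⌊g / p⌋₊ with hk
  have k1 : 1 ≤ k := Nat.le_floor (by exact_mod_cast h2)
  have k2 : (k : ℝ) * p ≤ g := by
    have := Nat.floor_le (by positivity : 0 ≤ g / p)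
    calc (k : ℝ) * p ≤ g / p * p := by gcongr
      _ = g := by field_simp
  have k3 : g < ((k : ℝ) + 1) * p := by
    have := Nat.lt_floor_add_one (g / p)
    calc g = g / p * p := by field_simp
      _ < ((k : ℝ) + 1) * p := by gcongr
  have kr : (1 : ℝ) ≤ k := by exact_mod_cast k1
  have kpos : (0 : ℝ) < k := by linarith
  have hkk : (k : ℝ) + 1 ≤ 2 * k := by linarith
  refine ⟨k, k1, k2, k3.le, ⟨1 / k, 0, by positivity, le_rfl, ?_, ?_, ?_⟩, ?_,
    ⟨0, p / (2 * g), le_rfl, by positivity, ?_, ?_, ?_⟩⟩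
  · have : (k : ℝ) * (1 / k) = 1 := by field_simp
    rw [this]; linarith
  · rw [add_zero, div_le_div_iff₀ kpos hg]
    nlinarith
  · have : (k : ℝ) * p * (1 / k) = p := by field_simp
    rw [this]; linarith
  · -- (B): total weight `p / g`
    set u : ℝ := ((k : ℝ) + 1) * p / g with hu
    have u1 : 1 ≤ u := by rw [hu, one_le_div hg]; exact k3.le
    have u2 : (k : ℝ) * (u - 1) ≤ 1 := by
      have : (k : ℝ) * (u - 1) = ((k : ℝ) + 1) * ((k : ℝ) * p) / g - k := by rw [hu]; ring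
      rw [this]
      have h3 : ((k : ℝ) + 1) * ((k : ℝ) * p) / g ≤ (k : ℝ) + 1 := by
        rw [div_le_iff₀ hg]
        have : 0 ≤ (k : ℝ) + 1 := by linarith
        nlinarith
      linarith
    have u0 : 0 ≤ (k : ℝ) * (u - 1) := by
      apply mul_nonneg kpos.le; linarith
    refine ⟨u - 1, (1 - (k : ℝ) * (u - 1)) / (k + 1), by linarith,
      div_nonneg (by linarith) (by linarith), ?_, ?_, ?_⟩
    · have e1 : ((k : ℝ) + 1) * ((1 - (k : ℝ) * (u - 1)) / (k + 1)) = 1 - (k : ℝ) * (u - 1) := by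
        field_simp
      rw [e1]; linarith
    · have e1 : u - 1 + (1 - (k : ℝ) * (u - 1)) / (k + 1) = u / (k + 1) := by
        field_simp
        ring
      rw [e1, hu]
      have e2 : ((k : ℝ) + 1) * p / g / (k + 1) = p / g := by field_simp
      rw [e2]
    · -- value
      have e1 : g = ((k : ℝ) + 1) * p / u := by
        rw [hu]; field_simp
      have upos : 0 < u := by linarith
      have e2 : (k : ℝ) * p * (u - 1) + g * ((1 - (k : ℝ) * (u - 1)) / (k + 1)) =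
          p * ((k : ℝ) * (u - 1) + (1 - (k : ℝ) * (u - 1)) / u) := by
        rw [e1]; field_simp
      rw [e2, mul_comm (33 / 40 : ℝ) p]
      refine mul_le_mul_of_nonneg_left ?_ h0.le
      have e3 : (k : ℝ) * (u - 1) + (1 - (k : ℝ) * (u - 1)) / u = (1 + (k : ℝ) * (u - 1) ^ 2) / u := by
        field_simp
        ring
      rw [e3, le_div_iff₀ upos]
      have e4 : (u - 1) ^ 2 ≤ (k : ℝ) * (u - 1) ^ 2 := by nlinarith [sq_nonneg (u - 1)]
      nlinarith [sq_nonneg (u - 113 / 80)]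
  · rw [mul_zero, zero_add]
    have : ((k : ℝ) + 1) * (p / (2 * g)) = ((k : ℝ) + 1) * p / (2 * g) := by ring
    rw [this, div_le_one (by positivity)]
    nlinarith
  · rw [zero_add]
  · rw [mul_zero, zero_add]
    have : g * (p / (2 * g)) = p / 2 := by field_simp
    rw [this]

/-- **The rounding lemma, second form.** -/
theorem rounding2 {ι : Type*} [DecidableEq ι] (S : Finset ι) (p : ι → ℝ) (g : ℝ) (hg : 0 < g)
    (hp : ∀ t ∈ S, 0 < p t) :
    ∃ (k : ι → ℕ) (y z : ι → ℝ), (∀ t ∈ S, 1 ≤ k t ∧ ((k t : ℝ) * p t ≤ g ∨ k t = 1) ∧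
        0 ≤ y t ∧ 0 ≤ z t ∧ (k t : ℝ) * y t + ((k t : ℝ) + 1) * z t ≤ 1) ∧
      ∑ t ∈ S, (y t + z t) ≤ 1 ∧
      min (∑ t ∈ S, p t) (min (13 / 20 * (∑ t ∈ S, p t) + 7 / 40 * g)
        (min (7 / 40 * (∑ t ∈ S, p t) + 13 / 20 * g) g)) ≤
        ∑ t ∈ S, (y t * min ((k t : ℝ) * p t) g + z t * min (((k t : ℝ) + 1) * p t) g) := by
  classical
  set x := ∑ t ∈ S, p t with hx
  by_cases hbig : ∃ t0 ∈ S, g < p t0
  · -- one layer above the gain: weight one at `s = 1`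
    obtain ⟨t0, ht0, hpt0⟩ := hbig
    refine ⟨fun _ => 1, fun t => if t = t0 then 1 else 0, fun _ => 0, ?_, ?_, ?_⟩
    · intro t _
      refine ⟨le_rfl, Or.inr rfl, ?_, le_rfl, ?_⟩
      · by_cases h : t = t0 <;> simp [h]
      · by_cases h : t = t0 <;> simp [h]
    · simp only [add_zero]
      rw [sum_ite_eq' S t0, if_pos ht0]
    · have e1 : ∑ t ∈ S, ((if t = t0 then (1 : ℝ) else 0) * min (((1 : ℕ) : ℝ) * p t) g +
          0 * min ((((1 : ℕ) : ℝ) + 1) * p t) g) = g := by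
        have e2 : ∀ t ∈ S, ((if t = t0 then (1 : ℝ) else 0) * min (((1 : ℕ) : ℝ) * p t) g +
            0 * min ((((1 : ℕ) : ℝ) + 1) * p t) g) = if t = t0 then g else 0 := by
          intro t _
          split_ifs with h
          · rw [h, Nat.cast_one, one_mul, one_mul, zero_mul, add_zero]
            exact min_eq_right hpt0.le
          · simp
        rw [sum_congr rfl e2, sum_ite_eq' S t0, if_pos ht0]
      rw [e1]
      exact (min_le_right _ _).trans ((min_le_right _ _).trans (min_le_right _ _))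
  push Not at hbig
  -- data of all layers
  have hex : ∀ t : ι, ∃ (k : ℕ) (yA zA yB zB yC zC : ℝ), t ∈ S →
      (1 ≤ k ∧ (k : ℝ) * p t ≤ g ∧ g ≤ ((k : ℝ) + 1) * p t) ∧
      (0 ≤ yA ∧ 0 ≤ zA ∧ (k : ℝ) * yA + ((k : ℝ) + 1) * zA ≤ 1 ∧ yA + zA ≤ 2 * p t / g ∧
        p t ≤ (k : ℝ) * p t * yA + g * zA) ∧
      (0 ≤ yB ∧ 0 ≤ zB ∧ (k : ℝ) * yB + ((k : ℝ) + 1) * zB ≤ 1 ∧ yB + zB ≤ p t / g ∧
        33 / 40 * p t ≤ (k : ℝ) * p t * yB + g * zB) ∧
      (0 ≤ yC ∧ 0 ≤ zC ∧ (k : ℝ) * yC + ((k : ℝ) + 1) * zC ≤ 1 ∧ yC + zC ≤ p t / (2 * g) ∧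
        p t / 2 ≤ (k : ℝ) * p t * yC + g * zC) := by
    intro t
    by_cases ht : t ∈ S
    · obtain ⟨k, a1, a2, a3, ⟨yA, zA, hA⟩, ⟨yB, zB, hB⟩, ⟨yC, zC, hC⟩⟩ :=
        layer (hp t ht) (hbig t ht)
      exact ⟨k, yA, zA, yB, zB, yC, zC, fun _ => ⟨⟨a1, a2, a3⟩, hA, hB, hC⟩⟩
    · exact ⟨1, 0, 0, 0, 0, 0, 0, fun h => absurd h ht⟩
  choose k yA zA yB zB yC zC H using hex
  -- convex combination with coefficients `α, β, γ`
  have main : ∀ α β γ : ℝ, 0 ≤ α → 0 ≤ β → 0 ≤ γ → α + β + γ ≤ 1 →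
      (α * 2 + β + γ / 2) * x ≤ g →
      ∃ (k : ι → ℕ) (y z : ι → ℝ), (∀ t ∈ S, 1 ≤ k t ∧ ((k t : ℝ) * p t ≤ g ∨ k t = 1) ∧
        0 ≤ y t ∧ 0 ≤ z t ∧ (k t : ℝ) * y t + ((k t : ℝ) + 1) * z t ≤ 1) ∧
      ∑ t ∈ S, (y t + z t) ≤ 1 ∧ (α + 33 / 40 * β + γ / 2) * x ≤
        ∑ t ∈ S, (y t * min ((k t : ℝ) * p t) g + z t * min (((k t : ℝ) + 1) * p t) g) := by
    intro α β γ hα hβ hγ hsum hw
    refine ⟨k, fun t => α * yA t + β * yB t + γ * yC t, fun t => α * zA t + β * zB t + γ * zC t,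
      ?_, ?_, ?_⟩
    · intro t ht
      obtain ⟨⟨a1, a2, a3⟩, ⟨A1, A2, A3, A4, A5⟩, ⟨B1, B2, B3, B4, B5⟩, ⟨C1, C2, C3, C4, C5⟩⟩ :=
        H t ht
      refine ⟨a1, Or.inl a2, by positivity, by positivity, ?_⟩
      have e1 : (k t : ℝ) * (α * yA t + β * yB t + γ * yC t) +
          ((k t : ℝ) + 1) * (α * zA t + β * zB t + γ * zC t) =
          α * ((k t : ℝ) * yA t + ((k t : ℝ) + 1) * zA t) +
          β * ((k t : ℝ) * yB t + ((k t : ℝ) + 1) * zB t) +
          γ * ((k t : ℝ) * yC t + ((k t : ℝ) + 1) * zC t) := by ring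
      rw [e1]
      have := mul_le_mul_of_nonneg_left A3 hα
      have := mul_le_mul_of_nonneg_left B3 hβ
      have := mul_le_mul_of_nonneg_left C3 hγ
      linarith
    · have hterm : ∀ t ∈ S, (α * yA t + β * yB t + γ * yC t) + (α * zA t + β * zB t + γ * zC t) ≤
          (α * 2 + β + γ / 2) / g * p t := by
        intro t ht
        obtain ⟨⟨a1, a2, a3⟩, ⟨A1, A2, A3, A4, A5⟩, ⟨B1, B2, B3, B4, B5⟩, ⟨C1, C2, C3, C4, C5⟩⟩ :=
          H t ht
        have f1 := mul_le_mul_of_nonneg_left A4 hα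
        have f2 := mul_le_mul_of_nonneg_left B4 hβ
        have f3 := mul_le_mul_of_nonneg_left C4 hγ
        have e1 : (α * 2 + β + γ / 2) / g * p t =
            α * (2 * p t / g) + β * (p t / g) + γ * (p t / (2 * g)) := by
          field_simp
        rw [e1]
        linarith
      calc _ ≤ ∑ t ∈ S, (α * 2 + β + γ / 2) / g * p t := sum_le_sum hterm
        _ = (α * 2 + β + γ / 2) * x / g := by rw [← mul_sum, ← hx]; ring
        _ ≤ 1 := by rw [div_le_one hg]; exact hw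
    · rw [hx, mul_sum]
      refine sum_le_sum fun t ht => ?_
      obtain ⟨⟨a1, a2, a3⟩, ⟨A1, A2, A3, A4, A5⟩, ⟨B1, B2, B3, B4, B5⟩, ⟨C1, C2, C3, C4, C5⟩⟩ :=
        H t ht
      rw [min_eq_left a2, min_eq_right a3]
      have f1 := mul_le_mul_of_nonneg_left A5 hα
      have f2 := mul_le_mul_of_nonneg_left B5 hβ
      have f3 := mul_le_mul_of_nonneg_left C5 hγ
      nlinarith
  have hx0 : 0 ≤ x := sum_nonneg fun t ht => (hp t ht).le
  rcases le_or_gt x (g / 2) with c1 | c1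
  · -- only (A)
    obtain ⟨k, y, z, h1, h2, h3⟩ := main 1 0 0 (by norm_num) le_rfl le_rfl (by norm_num)
      (by nlinarith)
    refine ⟨k, y, z, h1, h2, le_trans ?_ h3⟩
    refine (min_le_left _ _).trans (by linarith)
  have hxpos : 0 < x := by linarith
  rcases le_or_gt x g with c2 | c2
  · -- (A) and (B): `λ = g / x - 1`
    have l0 : 0 ≤ g / x - 1 := by
      rw [sub_nonneg, one_le_div hxpos]; exact c2
    have l1 : g / x - 1 ≤ 1 := by
      have : g / x ≤ 2 := by rw [div_le_iff₀ hxpos]; linarith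
      linarith
    have l2 : g / x * x = g := by field_simp
    obtain ⟨k, y, z, h1, h2, h3⟩ := main (g / x - 1) (1 - (g / x - 1)) 0 l0 (by linarith) le_rfl
      (by linarith) (by nlinarith)
    refine ⟨k, y, z, h1, h2, le_trans ?_ h3⟩
    refine (min_le_right _ _).trans ((min_le_left _ _).trans (le_of_eq ?_))
    have : (g / x - 1 + 33 / 40 * (1 - (g / x - 1)) + 0 / 2) * x =
        7 / 40 * (g / x * x) + 13 / 20 * x := by ring
    rw [this, l2]
    ring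
  rcases le_or_gt x (2 * g) with c3 | c3
  · -- (B) and (C): `μ = 2 g / x - 1`
    have l0 : 0 ≤ 2 * (g / x) - 1 := by
      have : 1 / 2 ≤ g / x := by rw [le_div_iff₀ hxpos]; linarith
      linarith
    have l1 : 2 * (g / x) - 1 ≤ 1 := by
      have : g / x ≤ 1 := by rw [div_le_one hxpos]; exact c2.le
      linarith
    have l2 : g / x * x = g := by field_simp
    obtain ⟨k, y, z, h1, h2, h3⟩ := main 0 (2 * (g / x) - 1) (1 - (2 * (g / x) - 1)) le_rfl l0
      (by linarith) (by linarith) (by nlinarith)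
    refine ⟨k, y, z, h1, h2, le_trans ?_ h3⟩
    refine (min_le_right _ _).trans ((min_le_right _ _).trans ((min_le_left _ _).trans
      (le_of_eq ?_)))
    have : (0 + 33 / 40 * (2 * (g / x) - 1) + (1 - (2 * (g / x) - 1)) / 2) * x =
        13 / 20 * (g / x * x) + 7 / 40 * x := by ring
    rw [this, l2]
    ring
  · -- scaled (C)
    have l2 : g / x * x = g := by field_simp
    have l1 : 2 * (g / x) ≤ 1 := by
      have : g / x ≤ 1 / 2 := by rw [div_le_iff₀ hxpos]; linarith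
      linarith
    have l0 : 0 ≤ g / x := by positivity
    obtain ⟨k, y, z, h1, h2, h3⟩ := main 0 0 (2 * (g / x)) le_rfl le_rfl (by linarith)
      (by linarith) (by nlinarith)
    refine ⟨k, y, z, h1, h2, le_trans ?_ h3⟩
    refine (min_le_right _ _).trans ((min_le_right _ _).trans ((min_le_right _ _).trans
      (le_of_eq ?_)))
    have : (0 + 33 / 40 * 0 + 2 * (g / x) / 2) * x = g / x * x := by ring
    rw [this, l2]

end Pool.BL72
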