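import Pool.Agent.H10.BL.Stmts
import Pool.Agent.H72.BL.Rnd1

/-!
# The rounding lemma, second form, with truncation: `Pool.BL72.rnq_thm : S_RNQ`
-/

set_option autoImplicit false

namespace Pool.BL72

open Finset Pool.BL

/-- the gain of the second form -/
noncomputable def Vq (x g : ℝ) : ℝ :=
  min x (min (13 / 20 * x + 7 / 40 * g) (min (7 / 40 * x + 13 / 20 * g) g))

/-- RNQ: rounding lemma, second form (`V ≥ min x (.65 x + .175 g) (.175 x + .65 g) g`) -/
def S_RNQ : Prop := ∀ (J : ℕ) (η : ℝ), 0 < η → ∃ S : ℕ, ∀ (p : ℕ → ℝ) (g : ℝ),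
  (∀ e, 0 ≤ p e ∧ p e ≤ 2) → 0 ≤ g → VB J S p g (Vq (∑ e ∈ Icc 1 J, p e) g - η)

/-- the sum over two consecutive values of `s` -/
lemma rnq_two (S k : ℕ) (h1 : 1 ≤ k) (h2 : k + 1 ≤ S) (a b : ℝ) (f : ℕ → ℝ) :
    ∑ s ∈ Icc 1 S, ((if s = k then a else 0) + (if s = k + 1 then b else 0)) * f s =
      a * f k + b * f (k + 1) := by
  have e1 : ∀ s ∈ Icc 1 S, ((if s = k then a else 0) + (if s = k + 1 then b else 0)) * f s =
      (if s = k then a * f k else 0) + (if s = k + 1 then b * f (k + 1) else 0) := by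
    intro s _
    rw [add_mul]
    congr 1
    · split_ifs with h
      · rw [h]
      · rw [zero_mul]
    · split_ifs with h
      · rw [h]
      · rw [zero_mul]
  rw [sum_congr rfl e1, sum_add_distrib, sum_ite_eq' (Icc 1 S) k, sum_ite_eq' (Icc 1 S) (k + 1),
    if_pos (mem_Icc.2 ⟨h1, by omega⟩), if_pos (mem_Icc.2 ⟨by omega, h2⟩)]

/-- `Vq x g ≤ Vq x' g + η` if `x ≤ x' + η` -/
lemma vq_mono {x x' g η : ℝ} (h0 : 0 ≤ η) (h : x - η ≤ x') : Vq x g - η ≤ Vq x' g := by
  unfold Vq
  have a1 := min_le_left x (min (13 / 20 * x + 7 / 40 * g) (min (7 / 40 * x + 13 / 20 * g) g))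
  have a2 := (min_le_right x (min (13 / 20 * x + 7 / 40 * g)
    (min (7 / 40 * x + 13 / 20 * g) g))).trans (min_le_left _ _)
  have a3 := (min_le_right x (min (13 / 20 * x + 7 / 40 * g)
    (min (7 / 40 * x + 13 / 20 * g) g))).trans ((min_le_right _ _).trans (min_le_left _ _))
  have a4 := (min_le_right x (min (13 / 20 * x + 7 / 40 * g)
    (min (7 / 40 * x + 13 / 20 * g) g))).trans ((min_le_right _ _).trans (min_le_right _ _))
  refine le_min ?_ (le_min ?_ (le_min ?_ ?_)) <;> linarith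

/-- the gain may be replaced by `2 x` when it is larger -/
lemma vq_min {x g : ℝ} (hx : 0 ≤ x) : Vq x g ≤ Vq x (min g (2 * x)) := by
  rcases le_or_gt g (2 * x) with h7 | h7
  · rw [min_eq_left h7]
  · rw [min_eq_right h7.le]
    unfold Vq
    have a1 := min_le_left x (min (13 / 20 * x + 7 / 40 * g) (min (7 / 40 * x + 13 / 20 * g) g))
    refine le_min a1 (le_min ?_ (le_min ?_ ?_)) <;> linarith

theorem rnq_thm : S_RNQ := by
  intro J η hη
  have hJ : (0 : ℝ) < (J : ℝ) + 1 := by positivity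
  set η' : ℝ := η / (J + 1) with hη'
  have hη'0 : 0 < η' := div_pos hη hJ
  refine ⟨⌈4 * (J : ℝ) / η'⌉₊ + 2, fun p g hp hg => ?_⟩
  set S : ℕ := ⌈4 * (J : ℝ) / η'⌉₊ + 2 with hS
  set x := ∑ e ∈ Icc 1 J, p e with hx
  set T := (Icc 1 J).filter (fun e => η' ≤ p e) with hT
  set x' := ∑ e ∈ T, p e with hx'
  have hxx : x - η ≤ x' := by
    have h1 := sum_filter_add_sum_filter_not (Icc 1 J) (fun e => η' ≤ p e) p
    have h2 : ∑ e ∈ (Icc 1 J).filter (fun e => ¬ η' ≤ p e), p e ≤ η := by
      calc _ ≤ ∑ e ∈ (Icc 1 J).filter (fun e => ¬ η' ≤ p e), η' :=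
            sum_le_sum fun e he => by
              have := (mem_filter.1 he).2
              push Not at this
              exact this.le
        _ = (((Icc 1 J).filter (fun e => ¬ η' ≤ p e)).card : ℝ) * η' := by
            rw [sum_const, nsmul_eq_mul]
        _ ≤ ((J : ℝ) + 1) * η' := by
            gcongr
            have h3 : ((Icc 1 J).filter (fun e => ¬ η' ≤ p e)).card ≤ J := by
              calc _ ≤ (Icc 1 J).card := card_filter_le _ _
                _ = J := by simp
            have h4 : (((Icc 1 J).filter (fun e => ¬ η' ≤ p e)).card : ℝ) ≤ J := by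
              exact_mod_cast h3
            linarith
        _ = η := by rw [hη']; field_simp
    rw [← hT, ← hx', ← hx] at h1
    linarith
  have hx'x : x' ≤ x := sum_le_sum_of_subset_of_nonneg (filter_subset _ _)
    fun e _ _ => (hp e).1
  -- trivial cases
  have htriv : (Vq x g - η ≤ 0) → VB J S p g (Vq x g - η) := by
    intro h
    refine ⟨fun _ _ => 0, fun _ _ => le_rfl, fun _ _ => ?_, ?_, ?_⟩
    · simp
    · simp
    · simpa using h
  rcases hg.eq_or_lt with hg0 | hg0
  · refine htriv ?_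
    have a4 : Vq x g ≤ g := (min_le_right x (min (13 / 20 * x + 7 / 40 * g)
      (min (7 / 40 * x + 13 / 20 * g) g))).trans ((min_le_right _ _).trans (min_le_right _ _))
    linarith
  rcases T.eq_empty_or_nonempty with hTe | hTe
  · refine htriv ?_
    have h1 : x' = 0 := by rw [hx', hTe, sum_empty]
    have : Vq x g ≤ x := min_le_left _ _
    linarith
  have hpT : ∀ t ∈ T, 0 < p t := fun t ht => lt_of_lt_of_le hη'0 (mem_filter.1 ht).2
  have hx'0 : 0 < x' := sum_pos hpT hTe
  have hx'J : x' ≤ 2 * J := by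
    calc x' ≤ ∑ e ∈ Icc 1 J, p e := hx'x
      _ ≤ ∑ _e ∈ Icc 1 J, (2 : ℝ) := sum_le_sum fun e _ => (hp e).2
      _ = 2 * J := by rw [sum_const, nsmul_eq_mul]; simp; ring
  set g' := min g (2 * x') with hg'
  have hg'0 : 0 < g' := lt_min hg0 (by linarith)
  obtain ⟨k, y, z, h1, h3, h4⟩ := rounding2 T p g' hg'0 hpT
  rw [← hx'] at h4
  -- the orders are bounded
  have hkS : ∀ t ∈ T, k t + 1 ≤ S := by
    intro t ht
    have hk1 := (h1 t ht).1
    rcases (h1 t ht).2.1 with h6 | h6
    · have h7 : (k t : ℝ) ≤ 4 * J / η' := by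
        rw [le_div_iff₀ hη'0]
        calc (k t : ℝ) * η' ≤ (k t : ℝ) * p t := by
              gcongr
              exact (mem_filter.1 ht).2
          _ ≤ g' := h6
          _ ≤ 2 * x' := min_le_right _ _
          _ ≤ 4 * J := by linarith
      have h8 : k t ≤ ⌈4 * (J : ℝ) / η'⌉₊ := by
        have := h7.trans (Nat.le_ceil _)
        exact_mod_cast this
      omega
    · omega
  -- the weights
  set w : ℕ → ℕ → ℝ := fun e s => if e ∈ T then
    (if s = k e then y e else 0) + (if s = k e + 1 then z e else 0) else 0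
    with hw
  have hsum : ∀ e ∈ Icc 1 J, ∀ f : ℕ → ℝ, ∑ s ∈ Icc 1 S, w e s * f s =
      if e ∈ T then y e * f (k e) + z e * f (k e + 1) else 0 := by
    intro e _ f
    by_cases he : e ∈ T
    · rw [if_pos he, ← rnq_two S (k e) (h1 e he).1 (hkS e he)]
      refine sum_congr rfl fun s _ => ?_
      rw [hw]
      simp only [if_pos he]
    · rw [if_neg he]
      refine sum_eq_zero fun s _ => ?_
      rw [hw]
      simp only [if_neg he, zero_mul]
  have hsumT : ∀ F : ℕ → ℝ, ∑ e ∈ Icc 1 J, (if e ∈ T then F e else 0) = ∑ e ∈ T, F e := by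
    intro F
    rw [← sum_filter]
    refine sum_congr ?_ fun _ _ => rfl
    ext e
    rw [mem_filter]
    exact ⟨fun h => h.2, fun h => ⟨(mem_filter.1 h).1, h⟩⟩
  refine ⟨w, ?_, ?_, ?_, ?_⟩
  · intro e s
    rw [hw]
    beta_reduce
    by_cases he : e ∈ T
    · have a1 := (h1 e he).2.2.1
      have a2 := (h1 e he).2.2.2.1
      rw [if_pos he]
      split_ifs <;> linarith
    · rw [if_neg he]
  · intro e he
    have e1 : ∑ s ∈ Icc 1 S, (s : ℝ) * w e s = ∑ s ∈ Icc 1 S, w e s * (s : ℝ) :=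
      sum_congr rfl fun s _ => mul_comm _ _
    rw [e1, hsum e he (fun s => (s : ℝ))]
    split_ifs with h
    · have := (h1 e h).2.2.2.2
      push_cast
      linarith
    · exact zero_le_one
  · have e1 : ∑ e ∈ Icc 1 J, ∑ s ∈ Icc 1 S, w e s =
        ∑ e ∈ Icc 1 J, if e ∈ T then y e + z e else 0 := by
      refine sum_congr rfl fun e he => ?_
      have := hsum e he (fun _ => 1)
      simpa using this
    rw [e1, hsumT]
    exact h3
  · have e1 : ∑ e ∈ Icc 1 J, ∑ s ∈ Icc 1 S, w e s * min ((s : ℝ) * p e) g =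
        ∑ e ∈ Icc 1 J, if e ∈ T then y e * min ((k e : ℝ) * p e) g +
          z e * min (((k e : ℝ) + 1) * p e) g else 0 := by
      refine sum_congr rfl fun e he => ?_
      have := hsum e he (fun s => min ((s : ℝ) * p e) g)
      simpa using this
    rw [e1, hsumT]
    have h5 : ∑ t ∈ T, (y t * min ((k t : ℝ) * p t) g' + z t * min (((k t : ℝ) + 1) * p t) g') ≤
        ∑ t ∈ T, (y t * min ((k t : ℝ) * p t) g + z t * min (((k t : ℝ) + 1) * p t) g) := by
      refine sum_le_sum fun t ht => ?_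
      have hgg : g' ≤ g := min_le_left _ _
      have a1 := (h1 t ht).2.2.1
      have a2 := (h1 t ht).2.2.2.1
      gcongr
    refine le_trans ?_ (h4.trans h5)
    exact (vq_mono hη.le hxx).trans (vq_min hx'0.le)

end Pool.BL72
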